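import Pool.Agent.H8.WP.Targets

/-!
# Module AF: the shift by one column
-/

set_option autoImplicit false

namespace Pool.Agent.H60.WP

open Pool.Agent.H69.Sp Pool.Agent.H69.Mt Pool.Agent.H16.TO Pool.Agent.H8.PL Pool.Agent.H8.DI
open Pool.Agent.H8.WP

theorem pf_af (hAL : W_AL) (hSU : W_SU) (hAI : W_AI) : W_AF := by
  classical
  intro V Q _ _ U Hh Vv st lt S I D F G rk M hP htr hR
  obtain ⟨hM0, hmm, hS⟩ := hSU V Q U Hh Vv st lt S I D F G rk M hP hR
  obtain ⟨hMM, hI⟩ := hAI V Q U Hh Vv st lt S I D F G rk M hP htr hR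
  have hltM : ∀ x, rk x < M (st x).s := hR.ltM
  have hltF : ∀ x, (st x).s = false → rk x < M false := by
    intro x hx
    have h := hltM x
    rwa [hx] at h
  have hltT : ∀ x, (st x).s = true → rk x < M false := by
    intro x hx
    have h := hltM x
    rwa [hx, hMM] at h
  have hsur : ∀ b i, i < M b → ∃ x, (st x).s = b ∧ rk x = i := hR.sur
  have hinj : ∀ x y, (st x).s = (st y).s → rk x = rk y → x = y := hR.inj
  have hlti : ∀ x y, (st x).s = (st y).s → (lt x y ↔ rk x < rk y) := hR.lti
  -- the length of the first column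
  have hex1 : ∃ i, ∀ x, (st x).s = false → rk x = i → (st x).fc = false :=
    ⟨M false, fun x hx h => absurd h (hltF x hx).ne⟩
  obtain ⟨q, hq⟩ : ∃ q, q = Nat.find hex1 := ⟨_, rfl⟩
  have hqs : ∀ x, (st x).s = false → rk x = q → (st x).fc = false := by
    rw [hq]
    exact Nat.find_spec hex1
  have hqM : q ≤ M false := by
    rw [hq]
    exact Nat.find_min' hex1 fun x hx h => absurd h (hltF x hx).ne
  have hfc : ∀ x, (st x).s = false → ((st x).fc = true ↔ rk x < q) := by
    intro x hx
    constructor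
    · intro h
      by_contra hlt
      push Not at hlt
      obtain ⟨y, hy1, hy2⟩ := hsur false q (lt_of_le_of_lt hlt (hltF x hx))
      have h1 := hqs y hy1 hy2
      rcases hlt.eq_or_lt with h2 | h2
      · rw [hqs x hx h2.symm] at h
        exact absurd h (by simp)
      · have h3 := hP.fcm y x (by rw [hy1, hx]) ((hlti y x (by rw [hy1, hx])).2 (by omega)) h
        rw [h1] at h3
        exact absurd h3 (by simp)
    · intro h
      rw [hq] at h
      have h1 := Nat.find_min hex1 h
      push Not at h1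
      obtain ⟨y, hy1, hy2, hy3⟩ := h1
      have h2 := hinj x y (by rw [hx, hy1]) hy2.symm
      rw [h2]
      simpa using hy3
  have hq0 : 0 < q := by
    obtain ⟨x, hx1, hx2⟩ := hsur false 0 hM0
    have h1 := ((hmm x hx1).2.2 hx2).1
    have h2 := (hfc x hx1).1 h1
    omega
  -- the last column
  have hex2 : ∃ i, ∀ x, (st x).s = false → rk x = i → (st x).lc = true :=
    ⟨M false, fun x hx h => absurd h (hltF x hx).ne⟩
  obtain ⟨p, hp⟩ : ∃ p, p = Nat.find hex2 := ⟨_, rfl⟩
  have hps : ∀ x, (st x).s = false → rk x = p → (st x).lc = true := by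
    rw [hp]
    exact Nat.find_spec hex2
  have hpM : p ≤ M false := by
    rw [hp]
    exact Nat.find_min' hex2 fun x hx h => absurd h (hltF x hx).ne
  have hlc : ∀ x, (st x).s = false → ((st x).lc = true ↔ p ≤ rk x) := by
    intro x hx
    constructor
    · intro h
      by_contra hlt
      push Not at hlt
      rw [hp] at hlt
      have h1 := Nat.find_min hex2 hlt
      push Not at h1
      obtain ⟨y, hy1, hy2, hy3⟩ := h1
      have h2 := hinj x y (by rw [hx, hy1]) hy2.symm
      rw [h2] at h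
      exact hy3 h
    · intro h
      obtain ⟨y, hy1, hy2⟩ := hsur false p (lt_of_le_of_lt h (hltF x hx))
      have h1 := hps y hy1 hy2
      rcases h.eq_or_lt with h2 | h2
      · exact hps x hx h2.symm
      · exact hP.lcm y x (by rw [hy1, hx]) ((hlti y x (by rw [hy1, hx])).2 (by omega)) h1
  have hlcf : ∀ x, (st x).s = false → ((st x).lc = false ↔ rk x < p) := by
    intro x hx
    have h1 := hlc x hx
    constructor
    · intro h
      by_contra h2
      push Not at h2
      rw [h1.2 h2] at h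
      exact absurd h (by simp)
    · intro h
      by_contra h2
      have h3 : (st x).lc = true := by simpa using h2
      have := h1.1 h3
      omega
  -- the other side
  have hfcT : ∀ y, (st y).s = true → ((st y).fc = true ↔ rk y < q) := by
    intro y hy
    obtain ⟨x, ⟨hx1, hx2⟩, -⟩ := hP.ii' y hy
    have h1 := (hP.il x y hx1 hy hx2).2.1
    have h2 := (hI x y hx1 hy).1 hx2
    rw [← h1, h2]
    exact hfc x hx1
  have hfcTf : ∀ y, (st y).s = true → ((st y).fc = false ↔ q ≤ rk y) := by
    intro y hy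
    have h1 := hfcT y hy
    constructor
    · intro h
      by_contra h2
      push Not at h2
      rw [h1.2 h2] at h
      exact absurd h (by simp)
    · intro h
      by_contra h2
      have h3 : (st y).fc = true := by simpa using h2
      have := h1.1 h3
      omega
  -- the cardinalities
  have hpq : p + q = M false := by
    have h1 : ∀ i, i < p → ∃ j, j < M false ∧ q ≤ j ∧ ∃ x y, (st x).s = false ∧ rk x = i ∧
        (st y).s = true ∧ rk y = j ∧ F x y := by
      intro i hi
      obtain ⟨x, hx1, hx2⟩ := hsur false i (by omega)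
      obtain ⟨y, ⟨hy1, hy2⟩, -⟩ := hP.ff x hx1 ((hlcf x hx1).2 (by omega))
      have h2 := hP.fl x y hx1 hy1 hy2
      exact ⟨rk y, hltT y hy1, (hfcTf y hy1).1 h2.2.2.1, x, y, hx1, hx2, hy1, rfl, hy2⟩
    have h2 : ∀ j, j < M false → q ≤ j → ∃ i, i < p ∧ ∃ x y, (st x).s = false ∧ rk x = i ∧
        (st y).s = true ∧ rk y = j ∧ F x y := by
      intro j hj hqj
      obtain ⟨y, hy1, hy2⟩ := hsur true j (by rw [hMM]; exact hj)
      obtain ⟨x, ⟨hx1, hx2⟩, -⟩ := hP.ff' y hy1 ((hfcTf y hy1).2 (by omega))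
      have h2 := hP.fl x y hx1 hy1 hx2
      exact ⟨rk x, (hlcf x hx1).1 h2.2.1, x, y, hx1, rfl, hy1, hy2, hx2⟩
    choose! f hf using h1
    choose! g hg using h2
    have c1 : (Finset.range p).card ≤ (Finset.Ico q (M false)).card := by
      refine Finset.card_le_card_of_injOn f ?_ ?_
      · intro i hi
        have h3 := hf i (Finset.mem_range.1 hi)
        exact Finset.mem_coe.2 (Finset.mem_Ico.2 ⟨h3.2.1, h3.1⟩)
      · intro i hi i' hi' hii
        obtain ⟨-, -, x, y, hx1, hx2, hy1, hy2, hF⟩ := hf i (Finset.mem_range.1 hi)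
        obtain ⟨-, h5, x', y', hx1', hx2', hy1', hy2', hF'⟩ := hf i' (Finset.mem_range.1 hi')
        have h3 : y = y' := hinj y y' (by rw [hy1, hy1']) (by rw [hy2, hy2', hii])
        subst h3
        obtain ⟨z, -, hz⟩ := hP.ff' y hy1 ((hfcTf y hy1).2 (by omega))
        have h4 := (hz x ⟨hx1, hF⟩).trans (hz x' ⟨hx1', hF'⟩).symm
        rw [← hx2, ← hx2', h4]
    have c2 : (Finset.Ico q (M false)).card ≤ (Finset.range p).card := by
      refine Finset.card_le_card_of_injOn g ?_ ?_
      · intro j hj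
        have h3 := Finset.mem_Ico.1 (Finset.mem_coe.1 hj)
        exact Finset.mem_coe.2 (Finset.mem_range.2 (hg j h3.2 h3.1).1)
      · intro j hj j' hj' hjj
        have h3 := Finset.mem_Ico.1 (Finset.mem_coe.1 hj)
        have h3' := Finset.mem_Ico.1 (Finset.mem_coe.1 hj')
        obtain ⟨h5, x, y, hx1, hx2, hy1, hy2, hF⟩ := hg j h3.2 h3.1
        obtain ⟨-, x', y', hx1', hx2', hy1', hy2', hF'⟩ := hg j' h3'.2 h3'.1
        have h6 : x = x' := hinj x x' (by rw [hx1, hx1']) (by rw [hx2, hx2', hjj])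
        subst h6
        obtain ⟨z, -, hz⟩ := hP.ff x hx1 ((hlcf x hx1).2 (by omega))
        have h4 := (hz y ⟨hy1, hF⟩).trans (hz y' ⟨hy1', hF'⟩).symm
        rw [← hy2, ← hy2', h4]
    rw [Finset.card_range, Nat.card_Ico] at c1 c2
    omega
  -- alignment
  have hal := hAL V (fun x => (st x).s) lt rk M (fun x y => ¬ lt x y) F G p q hR hq0 hpM
    (by
      intro x hx
      obtain ⟨u, hu⟩ := hR.up x
      refine ⟨u, fun y hy => ?_⟩
      have h1 := hu y (by
        rw [hx, hy]
        simp)
      rw [h1]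
      exact not_le)
    (by
      intro x x' y hx hx' hy hle hΛ h1
      apply hΛ
      rcases hle.eq_or_lt with h2 | h2
      · rw [hinj x x' (by rw [hx, hx']) h2]
        exact h1
      · exact htr x x' y ((hlti x x' (by rw [hx, hx'])).2 h2) h1)
    (by
      intro x hx hxp
      exact ⟨hP.ff x hx ((hlcf x hx).2 hxp), hP.gg x hx ((hlcf x hx).2 hxp)⟩)
    (by
      intro x y hx hy hxp hF
      have h1 := hP.fl x y hx hy hF
      have h2 := hltT y hy
      exact ⟨fun h => h h1.1, (hfcTf y hy).1 h1.2.2.1, by omega⟩)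
    (by
      intro x y hx hy hxp hG
      have h1 := hP.gl x y hx hy hG
      refine ⟨h1.1, ?_⟩
      by_contra hlt
      push Not at hlt
      have h2 := h1.2 ((hfcT y hy).2 (by omega))
      obtain ⟨z, ⟨hz1, hz2⟩, -⟩ := hP.ii' y hy
      have h3 := (hI z y hz1 hy).1 hz2
      have h4 := (hP.il z y hz1 hy hz2).2.2.2.2.1
      obtain ⟨z', hz1', hz2'⟩ := hsur false (rk y + 1) (by omega)
      have h5 := (hS z z' hz1 hz1').2 (by omega)
      have h6 := (hP.sl z z' hz1 hz1' h5).2.2.1 ((hfc z hz1).2 (by omega))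
      rw [(hfc z' hz1').2 (by omega)] at h6
      rw [← h4, h6] at h2
      exact absurd h2 (by simp))
    (by
      intro x x' y hx hx' hy hxp hxp' hF hF'
      have h1 := hP.fl x y hx hy hF
      obtain ⟨z, -, hz⟩ := hP.ff' y hy h1.2.2.1
      exact (hz x ⟨hx, hF⟩).trans (hz x' ⟨hx', hF'⟩).symm)
    (by
      intro x x' y hx hx' hy _ _ hG hG'
      exact hP.gg' y x x' hy hx hx' hG hG')
  refine ⟨q, hq0, hqM, fun x hx => ⟨hfc x hx, ?_⟩, fun x y hx hy => ⟨fun hF => ?_, fun h => ?_⟩⟩
  · rw [hlc x hx]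
    omega
  · have h1 := hP.fl x y hx hy hF
    exact (hal x y hx hy ((hlcf x hx).1 h1.2.1)).1 hF
  · have h1 := hltT y hy
    have h2 : rk x < p := by omega
    obtain ⟨y', ⟨hy1', hy2'⟩, -⟩ := hP.ff x hx ((hlcf x hx).2 h2)
    have h3 := (hal x y' hx hy1' h2).1 hy2'
    have h4 := hinj y y' (by rw [hy, hy1']) (by rw [h, h3])
    rw [h4]
    exact hy2'

end Pool.Agent.H60.WP
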